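import Pool.Agent.Y683.Cent
import Pool.Agent.W765.HK.Pair
import Pool.Agent.W216.CY.Div
import Pool.Agent.W287.HK.Basic
import Pool.Agent.W571.HK.Cls
import Pool.Agent.W53.HK.Fp
import Pool.Agent.W366.HK.Fpr
import Pool.Agent.W585.HK.LAT
import Pool.Agent.W692.HK.Ker
import Pool.Agent.W584.HK.CNT
import Pool.Agent.W513.HK.Divr
import Pool.Agent.W822.HK.MU
import Pool.Agent.W240.HK.Count
import Pool.Agent.W856.HK.Dec
import Pool.Agent.W636.HK.Gauss
import Pool.Agent.W348.HK.Pois

/-!
# Non-vanishing of the central values of Hecke characters of an imaginary quadratic field, uniformly in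
the character and in the weight

`R` is the ring of integers of an imaginary quadratic field `K` (any class number), `θ` a primitive
Hecke character of `K` of conductor `q` and infinity type `(2m - 1, 0)`, where `m ≥ 1`.  The finite part
of `θ` is the character `α ↦ θ((α)) / α ^ (2m - 1)` of `(R / q)ˣ`; let `d` be its order.

For every `ε > 0` there is `N₀`, depending on `K` and `ε` only, such that `L(θ, m) ≠ 0` as soon as
`N(q) ≥ N₀`, `d ≥ N(q) ^ (2/3 + ε)` and `d ^ 2 ≥ m N(q) ^ (1 + ε)`.  The last condition follows from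
the one before when `m ≤ N(q) ^ (1/3)`.

The motive `M(θ)(m)` over `K` is polarized, its `L`-function is the product of `L(θ', s + m)` over the
conjugates `θ'` of `θ`, so its order of vanishing at the centre is `0`, and by Kato's theorem on the
`p`-adic Galois representations of modular forms (here of the theta series of `θ`) its Selmer groups
vanish.

Proof.  Fix ideal numbers `Φ`: `Φ(I) ^ h` is a generator of `I ^ h`.  Then `ρ = θ / Φ ^ (2m - 1)` has
values roots of unity, and an automorphism of the complex numbers over a number field which depends on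
`K` only takes `θ` to `θ ρ ^ (M b)`.  Here `ρ ^ M` is a ray class character modulo `q`.  The mollified
first moment of `L(θ ρ ^ (M b), m)` over the `b` with `1 + M b` prime to the order is not zero.  Finally,
`L(θ, m)` is expressed by values of elliptic functions at torsion points
(`Pool.Agent.TH936.CW`), so that it vanishes only if the value for the conjugate vanishes.
-/

set_option autoImplicit false

open Complex

namespace Pool.Agent.Results.MP_ec4e4b_nt.AllHeckeCharacters

/-- The norm `N(I)` of an ideal (`0` for the zero ideal, whose residue ring is infinite). -/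
noncomputable def norm {R : Subring ℂ} (I : Ideal R) : ℝ := (Nat.card (R ⧸ I) : ℝ)

/-- `θ`, a function on the ideals of `R`, is a primitive Hecke character of conductor `q` and infinity
type `(n, 0)`: it is multiplicative, vanishes exactly at the zero ideal and the ideals not prime to
`q`, satisfies `θ((α)) = α ^ n` for `α ≡ 1 mod q`, and this fails for every strictly larger ideal `q'`
in place of `q`. -/
structure IsHecke {R : Subring ℂ} (n : ℕ) (q : Ideal R) (θ : Ideal R → ℂ) : Prop where
  ne_bot : q ≠ ⊥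
  mul : ∀ I J : Ideal R, θ (I * J) = θ I * θ J
  eq_zero : ∀ I : Ideal R, θ I = 0 ↔ (I = ⊥ ∨ ¬ IsCoprime I q)
  principal : ∀ α : R, α ≠ 0 → α - 1 ∈ q → θ (Ideal.span {α}) = (α : ℂ) ^ n
  primitive : ∀ q' : Ideal R, q < q' → ∃ α : R, α ≠ 0 ∧ α - 1 ∈ q' ∧ IsCoprime (Ideal.span {α}) q ∧
    θ (Ideal.span {α}) ≠ (α : ℂ) ^ n

/-- `d` is the order of the finite part `α ↦ θ((α)) / α ^ n` of `θ` on the elements prime to `q`. -/
def FinitePartOrder {R : Subring ℂ} (n : ℕ) (q : Ideal R) (θ : Ideal R → ℂ) (d : ℕ) : Prop :=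
  IsLeast {e : ℕ | 0 < e ∧ ∀ α : R, IsCoprime (Ideal.span {α}) q →
    (θ (Ideal.span {α}) / (α : ℂ) ^ n) ^ e = 1} d

theorem isHecke_iff {R : Subring ℂ} (n : ℕ) (f : Ideal R) (ψ : Ideal R → ℂ) :
    IsHecke n f ψ ↔ Pool.Agent.W192.HK.HC n f ψ :=
  ⟨fun h => ⟨h.ne_bot, h.mul, h.eq_zero, h.principal, h.primitive⟩,
    fun h => ⟨h.ne, h.mul, h.zero, h.princ, h.prim⟩⟩

/-- **Main theorem.** Let `R = ℤ + ℤ ω` be a subring of `ℂ` that is a lattice and a Dedekind domain.
For every `ε > 0` there is `N₀` such that, for every `m ≥ 1` and every primitive Hecke character `θ`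
of conductor `q` and infinity type `(2m - 1, 0)` on the ideals of `R` with `N(q) ≥ N₀`, whose finite
part has an order `d` with `d ≥ N(q) ^ (2/3 + ε)` and `d ^ 2 ≥ m N(q) ^ (1 + ε)`, the function
`∑ θ(I) N(I) ^ (-s)` (`Re s > m + 1/2`) extends to an entire function that does not vanish at the
centre `s = m`. -/
theorem result (R : Subring ℂ) (ω : ℂ) (hω : 0 < ω.im)
    (hR : ∀ z : ℂ, z ∈ R ↔ ∃ x y : ℤ, z = x + y * ω) (hded : IsDedekindDomain R)
    (ε : ℝ) (hε : 0 < ε) :
    ∃ N0 : ℝ, ∀ m : ℕ, 1 ≤ m → ∀ (q : Ideal R) (θ : Ideal R → ℂ), IsHecke (2 * m - 1) q θ →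
      N0 ≤ norm q → ∀ d : ℕ, FinitePartOrder (2 * m - 1) q θ d →
      (norm q) ^ (2 / 3 + ε) ≤ d → m * (norm q) ^ (1 + ε) ≤ (d : ℝ) ^ 2 →
      ∃ L : ℂ → ℂ, Differentiable ℂ L ∧
        (∀ s : ℂ, (m : ℝ) + 1 / 2 < s.re →
          HasSum (fun I : Ideal R => θ I * (norm I : ℂ) ^ (-s)) (L s)) ∧
        L m ≠ 0 := by
  have hbasic := Pool.Agent.W287.HK.h_basic
  have hcls := Pool.Agent.W571.HK.h_cls hbasic
  have hfp := Pool.Agent.W53.HK.h_fp hbasic hcls
  have hfpr := Pool.Agent.W366.HK.h_fpr hbasic hcls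
  have hlat := Pool.Agent.W585.HK.h_lat hbasic
  have hker := Pool.Agent.W692.HK.h_ker hbasic hcls hfpr
  have hcnt := Pool.Agent.W584.HK.h_cnt hbasic hcls hfpr hlat hker
  have hdivr := Pool.Agent.W513.HK.h_divr hbasic
  have hmu := Pool.Agent.W822.HK.h_mu hbasic
  have hcount := Pool.Agent.W240.HK.h_count hbasic hcnt hdivr
  have hdiv := Pool.Agent.W216.CY.t_div
  have hdec := Pool.Agent.W856.HK.h_dec hbasic
  have hgauss := Pool.Agent.W636.HK.h_gauss hbasic hfp
  have hpois := Pool.Agent.W348.HK.h_pois hbasic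
  have htheta := Pool.Agent.TH936.HK.h_theta hbasic hfp hdec hgauss hpois hcnt
  have hafe := Pool.Agent.TH936.HK.h_afe hbasic hfp hcnt hgauss htheta
  have htail := Pool.Agent.Y683.tailz hbasic hcnt hcount
  have hmain := Pool.Agent.Y683.mainb hbasic hcnt hdivr htail
  have hdual := Pool.Agent.Y683.dualb hdiv hbasic hcnt hker hfpr
  have hfin := Pool.Agent.Y683.finb hdiv hbasic hcnt hmu hmain hdual
  have hQ : Pool.Agent.W192.HK.QR R ω := ⟨hω, hR, hded⟩
  obtain ⟨N0, H⟩ := Pool.Agent.Y683.nonvan hbasic hcls hcnt hfpr hfp hdec hafe hfin hQ ε hε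
  refine ⟨N0, fun m hm q θ hθ hN d hd hd1 hd2 => ?_⟩
  exact H m hm q θ ((isHecke_iff _ _ _).1 hθ) hN d (fun e he h => hd.2 ⟨he, h⟩) hd1 hd2

end Pool.Agent.Results.MP_ec4e4b_nt.AllHeckeCharacters
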