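import Pool.Agent.Y683.AA.NFMain

/-!
# Central values of 100% of the Dirichlet twists of a newform of any even weight

`f ∈ S_{2m}(Γ₁(N))` is a newform of even weight `2m` with character `η`, `M_f` its motive.  The
motives `M_f(m) ⊗ χ`, summed over the conjugates of `(f, χ)`, are polarized motives over `ℚ`; their
central values are the `L(f, χ, m)`.  The average order of vanishing of `L(f, χ, s)` at the centre,
over all primitive Dirichlet characters `χ` of conductor at most `X` (prime to `N`), is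
`O(exp(-c (log X)^(1/3)))`.

The analytic part (mean value of the central values over conjugates of `χ` by an arithmetic
progression, Weil's bound for Kloosterman sums) is taken from the starting modules of helper192 and
others (`W192.CY`, `W192.WO`, ...).  New here: `L(f, χ, m)` divided by an explicit nonzero factor is a
`ℚ(χ)`-linear combination of elements of a finite dimensional `ℚ`-vector space of periods that depends
only on `f` (Manin's trick with polynomial coefficients), so that the automorphisms of `ℂ` that fix a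
suitable number field permute the vanishing central values of the `χ`; and a bound for the number of
moduli `q ≤ X` for which Carmichael's function is smaller than `q^(1 - ε)`.
-/

set_option autoImplicit false

open Complex UpperHalfPlane MatrixGroups CongruenceSubgroup

namespace Pool.Agent.Results.MP_ec4e4b_nt.AlmostAllTwists

/-- The `n`-th Fourier coefficient of `f`. -/
noncomputable def coef {N : ℕ} {k : ℤ} (f : CuspForm (Gamma1 N : Subgroup (GL (Fin 2) ℝ)) k)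
    (n : ℕ) : ℂ :=
  (qExpansion 1 f).coeff n

/-- `f ∈ S_{2m}(Γ₁(N))` is a newform of weight `2m` with character `η`:
`f(γτ) = η(d) (cτ + d)^(2m) f(τ)` for all `γ = (a b; c d) ∈ Γ₀(N)`, the Fourier coefficients `c(n)` of
`f` satisfy `c(1) = 1`, `c(ab) = c(a) c(b)` for coprime `a`, `b`,
`c(p^(j+2)) = c(p) c(p^(j+1)) - η(p) p^(2m-1) c(p^j)`, and for the primes `p ∤ N` also
`conj c(p) = conj η(p) c(p)` and `|c(p)| ≤ 2 p^((2m-1)/2)` (Deligne), for the primes `p ∣ N`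
`|c(p)| ≤ p^((2m-1)/2)`; the Fricke involution takes `f` to a multiple of `f^c`,
`f^c(τ) = conj f(-conj τ)`: `f(-1/(Nτ)) = w (-N)^m τ^(2m) f^c(τ)` with `|w| = 1`. -/
structure IsNewform (m N : ℕ) (η : DirichletCharacter ℂ N)
    (f : CuspForm (Gamma1 N : Subgroup (GL (Fin 2) ℝ)) (2 * m : ℤ)) : Prop where
  neb : ∀ γ : SL(2, ℤ), γ ∈ Gamma0 N → ∀ τ : ℍ, f (γ • τ) = η ((γ 1 1 : ℤ) : ZMod N) *
    (((γ 1 0 : ℤ) : ℂ) * (τ : ℂ) + ((γ 1 1 : ℤ) : ℂ)) ^ (2 * m) * f τ
  one : coef f 1 = 1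
  mul : ∀ a b : ℕ, Nat.Coprime a b → coef f (a * b) = coef f a * coef f b
  pow : ∀ p j : ℕ, p.Prime → coef f (p ^ (j + 2)) = coef f p * coef f (p ^ (j + 1)) -
    η (p : ZMod N) * (p : ℂ) ^ (2 * m - 1) * coef f (p ^ j)
  conj : ∀ p : ℕ, p.Prime → ¬ p ∣ N → (starRingEnd ℂ) (coef f p) =
    (starRingEnd ℂ) (η (p : ZMod N)) * coef f p
  good : ∀ p : ℕ, p.Prime → ¬ p ∣ N → ‖coef f p‖ ≤ 2 * (p : ℝ) ^ ((2 * m - 1 : ℝ) / 2)
  bad : ∀ p : ℕ, p.Prime → p ∣ N → ‖coef f p‖ ≤ (p : ℝ) ^ ((2 * m - 1 : ℝ) / 2)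
  fricke : ∃ w : ℂ, ‖w‖ = 1 ∧ ∀ τ τ' τc : ℍ, (τ' : ℂ) * ((N : ℂ) * (τ : ℂ)) = -1 →
    (τc : ℂ) = -(starRingEnd ℂ) (τ : ℂ) →
    f τ' = (-1 : ℂ) ^ m * w * (N : ℂ) ^ m * (τ : ℂ) ^ (2 * m) * (starRingEnd ℂ) (f τc)

/-- The Euler factor of `L(f, χ, s)` at the prime `p`:
`(1 - χ(p) c(p) p^(-s) + χ(p)² η(p) p^(2m-1-2s))⁻¹`. -/
noncomputable def factor {m N : ℕ} (η : DirichletCharacter ℂ N)
    (f : CuspForm (Gamma1 N : Subgroup (GL (Fin 2) ℝ)) (2 * m : ℤ)) (q : ℕ)
    (χ : DirichletCharacter ℂ q) (s : ℂ) (p : ℕ) : ℂ :=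
  (1 - χ (p : ZMod q) * coef f p * (p : ℂ) ^ (-s) +
    χ (p : ZMod q) ^ 2 * η (p : ZMod N) * (p : ℂ) ^ (2 * (m : ℂ) - 1 - 2 * s))⁻¹

/-- The product of `L(f, χ', s)` over all Dirichlet characters `χ` modulo `q`, `χ'` the primitive
character that induces `χ`; this is the L-function `L(f/ℚ(ζ_q), s)` of `M_f` over the `q`-th
cyclotomic field. -/
noncomputable def cyclotomicL (L : (q : ℕ) → DirichletCharacter ℂ q → ℂ → ℂ) (q : ℕ) (s : ℂ) : ℂ :=
  ∏ᶠ χ : DirichletCharacter ℂ q, L χ.conductor χ.primitiveCharacter s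

/-- All primitive Dirichlet characters of conductor `q ≤ X` prime to `N`. -/
def Primitives (N X : ℕ) : Set (Σ q : ℕ, DirichletCharacter ℂ q) :=
  {x | 1 ≤ x.1 ∧ x.1 ≤ X ∧ Nat.Coprime x.1 N ∧ x.2.IsPrimitive}

/-- `exp(-c (log X)^(1/3))`. -/
noncomputable def decay (c : ℝ) (X : ℕ) : ℝ := Real.exp (-c * (Real.log X) ^ ((1 : ℝ) / 3))

/-- **Main theorem.** Let `f ∈ S_{2m}(Γ₁(N))` be a newform of weight `2m` with character `η`.  For every
primitive Dirichlet character `χ` of conductor `q` prime to `N` there is an entire function `L q χ`,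
not identically zero near `m`, which for `Re s > m + 1/2` is the Euler product of `L(f, χ, s)`, and
* there are `C`, `c > 0` such that for all `X ≥ 1` the average order of vanishing at `s = m` of the
  `L(f, χ, s)`, and the proportion of the `χ` with `L(f, χ, m) = 0`, over **all** primitive `χ` of
  conductor at most `X`, prime to `N`, are at most `C exp(-c (log X)^(1/3))`;
* for every `ε > 0` there is `q₀` such that `L(f, χ, m) ≠ 0` for **all** `q ≥ q₀` prime to `N` and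
  **all** primitive characters `χ` modulo `q` of order at least `q ^ (3/4 + ε)`;
* `L(f/ℚ(ζ_q), s)` is not identically zero near `s = m`, and for every `ε > 0` there are `C`, `c > 0`
  such that its order of vanishing at `s = m` is at most `C q ^ (3/4 + ε)` for all `q ≤ X` prime to
  `N` but at most `C X exp(-c (log X)^(1/3))`, and for all powers `q = p^k` of primes `p ∤ N` it is at
  most `C q ^ (3/4 + ε)` and at most `C p ^ (3 + ε)`. -/
theorem result (m N : ℕ) [NeZero N] (hm : 1 ≤ m) (η : DirichletCharacter ℂ N)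
    (f : CuspForm (Gamma1 N : Subgroup (GL (Fin 2) ℝ)) (2 * m : ℤ)) (hf : IsNewform m N η f) :
    ∃ L : (q : ℕ) → DirichletCharacter ℂ q → ℂ → ℂ,
      (∀ (q : ℕ) (χ : DirichletCharacter ℂ q), 1 ≤ q → Nat.Coprime q N → χ.IsPrimitive →
        Differentiable ℂ (L q χ) ∧ analyticOrderAt (L q χ) m ≠ ⊤ ∧
        ∀ s : ℂ, (m : ℝ) + 1 / 2 < s.re →
          HasProd (fun p : Nat.Primes => factor η f q χ s p) (L q χ s)) ∧
      (∃ C c : ℝ, 0 < C ∧ 0 < c ∧ ∀ X : ℕ, 1 ≤ X →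
        ((∑ᶠ x ∈ Primitives N X, analyticOrderNatAt (L x.1 x.2) m : ℕ) : ℝ) ≤
          C * decay c X * (Primitives N X).ncard ∧
        ({x ∈ Primitives N X | L x.1 x.2 m = 0}.ncard : ℝ) ≤
          C * decay c X * (Primitives N X).ncard) ∧
      (∀ ε : ℝ, 0 < ε → ∃ q₀ : ℕ, ∀ q : ℕ, q₀ ≤ q → Nat.Coprime q N →
        ∀ χ : DirichletCharacter ℂ q, χ.IsPrimitive → (q : ℝ) ^ (3 / 4 + ε) ≤ orderOf χ →
          L q χ m ≠ 0) ∧
      (∀ q : ℕ, 1 ≤ q → Nat.Coprime q N → analyticOrderAt (cyclotomicL L q) m ≠ ⊤) ∧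
      ∀ ε : ℝ, 0 < ε → ∃ C c : ℝ, 0 < C ∧ 0 < c ∧
        (∀ X : ℕ, 1 ≤ X → ({q : ℕ | 1 ≤ q ∧ q ≤ X ∧ Nat.Coprime q N ∧
          C * (q : ℝ) ^ (3 / 4 + ε) < analyticOrderNatAt (cyclotomicL L q) m}.ncard : ℝ) ≤
            C * X * decay c X) ∧
        ∀ p : ℕ, p.Prime → ¬ p ∣ N → ∀ k : ℕ,
          (analyticOrderNatAt (cyclotomicL L (p ^ k)) m : ℝ) ≤ C * ((p : ℝ) ^ k) ^ (3 / 4 + ε) ∧
          (analyticOrderNatAt (cyclotomicL L (p ^ k)) m : ℝ) ≤ C * (p : ℝ) ^ (3 + ε) := by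
  classical
  obtain ⟨w, hw, hfr⟩ := hf.fricke
  obtain ⟨L, h1, h2, ⟨C, c, hC, hc, h3⟩, h4, h5⟩ := Pool.Agent.Y683.AA.nf_main hm
    (f := f) (η := η) (w := w)
    ⟨hf.one, hf.mul, hf.pow, hf.conj, hf.good, hf.bad, hf.neb, hw, hfr⟩
  refine ⟨L, h1, ⟨C, c, hC, hc, fun X hX => ⟨h3 X hX, ?_⟩⟩, h2, h4, fun ε hε => ?_⟩
  · refine le_trans ?_ (h3 X hX)
    refine (Nat.cast_le (α := ℝ)).2 (Pool.Agent.Y683.AA.ncard_le_finsum
      (Pool.Agent.Y683.AA.prim_finite N X) _ _ fun x hx h0 hz => ?_)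
    obtain ⟨a1, -, a3, a4⟩ := hx
    obtain ⟨b1, b2, -⟩ := h1 x.1 x.2 a1 a3 a4
    have h6 : analyticOrderAt (L x.1 x.2) m = 0 := by
      rw [← Nat.cast_analyticOrderNatAt b2, hz]
      rfl
    exact ((b1.analyticAt _).analyticOrderAt_eq_zero.1 h6) h0
  · obtain ⟨C', c', hC', hc', h6, h7⟩ := h5 ε hε
    refine ⟨C', c', hC', hc', fun X hX => ?_, h7⟩
    refine le_trans (le_of_eq ?_) (h6 X hX)
    rw [← Set.ncard_coe_finset]
    congr 2
    ext q
    simp only [Set.mem_ofPred_eq, Finset.coe_filter, Finset.mem_Icc, and_assoc]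
    rfl

end Pool.Agent.Results.MP_ec4e4b_nt.AlmostAllTwists
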