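import Mathlib
import Pool.Agent.Y696.XL.Ov

/-!
# The order of vanishing formula for cubic twists over `ℚ(√-3)` and over cubic extensions

`K` is the field of third roots of unity, `E_D : y² + D y = x³`, and `D` runs through the squarefree
`D = 1` modulo `3` of `𝓞 K` whose norm is not `1` modulo `9`; there are at least `c X` such `D` of
norm at most `X`. For `M = h¹(E_D)(1)` we have `L(s, M) = L(E_D / K, s + 1)` and `M_3 = V_3 E_D`.

* `L(E_D / K, s)` is entire for every such `D`, and so is `L(E / F, s)` for `E : y² + y = x³` and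
  every `F = K(θ)`, `θ³ = D`.
* If `E_D(K)` is finite and `Ш(E_D / K)[3^∞] = 0` then the formula of the problem holds for `p = 3`
  and `h¹(E_D)(1)` over `K`, and for `h¹(E)(1)` over each of these `F`: the order of vanishing,
  `H⁰(·, V_3)` and `H¹_f(·, V_3)` are zero.
* This is so if and only if the kernel of the Laplacian of the matrix of the cubic residue symbols
  of the prime divisors of `D` consists of the constants.
* The proportion of these `D` tends to `∏_{i ≥ 0} (1 - 3^{-(2 i + 1)}) = 0.6390...`.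

`H1f 3 W` (`Pool.Agent.Y667.BKP.H1f`, by helper667) is the group of the classes of the continuous
cocycles of the absolute Galois group with values in `V_3 W = T_3 W ⊗ ℚ_3` whose restriction to the
completion at every place is in the image of the Kummer map; this is the condition of Bloch and Kato.
An element of `V_3 W` is described by a sequence of points (`IsV 3 W`).

Joint work of the seats named in the headers of `Pool/Agent/Y703/XK`, `Pool/Agent/Y703/CT`, of
the files imported by `Pool/Agent/Y696/CTK/Fin.lean` and `Pool/Agent/Y696/CTE/Fin.lean`, and of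
helper667 (`Pool/Agent/Y667/BKP`).
-/

set_option autoImplicit false

namespace Pool.Agent.Results.MP_ec4e4b_nt.CubicTwistsOrderFormula

open NumberField WeierstrassCurve
open Pool.Agent.TH841.SH.D (Gal act)
open Pool.Agent.TH841.NF.D (Sha)
open Pool.Agent.Y667.BKP (H1f PSeq IsV)
open scoped Classical

/-- The curve `E_D : y² + D y = x³`. -/
def curve {F : Type} [Field F] (D : F) : WeierstrassCurve F := ⟨0, 0, D, 0, 0⟩

/-- `H⁰(F, V_3 W) = 0`: the elements of `V_3 W` that are fixed by the Galois group are zero. -/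
def NoInvariants {F : Type} [Field F] (W : WeierstrassCurve F) : Prop :=
  ∀ x : PSeq W, IsV 3 W x → (∀ (σ : Gal F) (n : ℕ), act W σ.toAlgHom (x n) = x n) → ∀ n, x n = 0

/-- The `L`-series of `W` extends to an entire function. -/
def Continues {F : Type} [Field F] [NumberField F] (W : WeierstrassCurve F) : Prop :=
  ∃ L : ℂ → ℂ, Differentiable ℂ L ∧ ∀ s : ℂ, (3 / 2 : ℝ) < s.re → L s = W.LSeries s

/-- The order of vanishing formula for `h¹(W)(1)` and `p = 3`, with rank zero: `W` is an elliptic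
curve, its `L`-series extends to an entire function that is not zero at `1`, and `H⁰(F, V_3 W)` and
`H¹_f(F, V_3 W)` are zero. -/
def Formula {F : Type} [Field F] [NumberField F] (W : WeierstrassCurve F) : Prop :=
  W.IsElliptic ∧
  (∃ L : ℂ → ℂ, Differentiable ℂ L ∧ (∀ s : ℂ, (3 / 2 : ℝ) < s.re → L s = W.LSeries s) ∧
    L 1 ≠ 0) ∧ NoInvariants W ∧ ∀ x : H1f 3 W, x = 0

variable {K : Type} [Field K] [NumberField K]

/-- `D` is squarefree and `1` modulo `3`, and its norm is not `1` modulo `9`. -/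
def InClass (D : 𝓞 K) : Prop :=
  (3 : 𝓞 K) ∣ D - 1 ∧ Squarefree D ∧ ¬ (9 : ℤ) ∣ Algebra.norm ℤ D - 1

/-- `E_D(K)` is finite and the `3`-primary part of `Ш(E_D / K)` is trivial. -/
def FiniteAndTrivial (D : 𝓞 K) : Prop :=
  Finite (curve (D : K)).toAffine.Point ∧ ∀ (n : ℕ) (x : Sha (curve (D : K))), 3 ^ n • x = 0 → x = 0

/-- `D` is the product of the primes `π i`, which are `1` modulo `3`, and the cubic residue symbol
of `π i` modulo `π j` is `ω ^ χ j i`. -/
def IsFactorization (ω D : 𝓞 K) (n : ℕ) (π : Fin n → 𝓞 K) (χ : Fin n → Fin n → ZMod 3) : Prop :=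
  (∀ i, Prime (π i) ∧ (3 : 𝓞 K) ∣ π i - 1) ∧ D = ∏ i, π i ∧
  ∀ i j, i ≠ j →
    π j ∣ π i ^ (((Algebra.norm ℤ (π j)).natAbs - 1) / 3) - ω ^ (χ j i).val

/-- The kernel of the Laplacian of `χ` over the field with three elements consists of the
constants. -/
def IsConnected {n : ℕ} (χ : Fin n → Fin n → ZMod 3) : Prop :=
  ∀ v : Fin n → ZMod 3, (∀ j, ∑ i, χ j i * (v i - v j) = 0) → ∀ i j, v i = v j

/-- `D` has a factorization, and for each one: `E_D(K)` is finite and `Ш(E_D / K)[3^∞] = 0` if and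
only if the kernel of the Laplacian of the cubic residue symbols consists of the constants. -/
def Criterion (D : 𝓞 K) : Prop :=
  (∃ (ω : 𝓞 K) (n : ℕ) (π : Fin n → 𝓞 K) (χ : Fin n → Fin n → ZMod 3),
    ω ^ 2 + ω + 1 = 0 ∧ IsFactorization ω D n π χ) ∧
  ∀ (ω : 𝓞 K) (n : ℕ) (π : Fin n → 𝓞 K) (χ : Fin n → Fin n → ZMod 3),
    ω ^ 2 + ω + 1 = 0 → IsFactorization ω D n π χ → (FiniteAndTrivial D ↔ IsConnected χ)

theorem result (K : Type) [Field K] [NumberField K] [IsCyclotomicExtension {3} ℚ K] :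
    (∃ c : ℝ, 0 < c ∧ ∃ X₀ : ℕ, ∀ X : ℕ, X₀ ≤ X →
      c * X ≤ ({D : 𝓞 K | Algebra.norm ℤ D ≤ X ∧ InClass D}.ncard : ℝ)) ∧
    (∀ D : 𝓞 K, InClass D → Criterion D ∧ Continues (curve (D : K)) ∧
      (∃ (F : Type) (_ : Field F) (_ : NumberField F) (_ : Algebra K F) (θ : F),
        Module.finrank K F = 3 ∧ θ ^ 3 = algebraMap K F D) ∧
      (∀ (F : Type) [Field F] [NumberField F] [Algebra K F] (θ : F),
        Module.finrank K F = 3 → θ ^ 3 = algebraMap K F D → Continues (curve (1 : F))) ∧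
      (FiniteAndTrivial D → Formula (curve (D : K)) ∧
        ∀ (F : Type) [Field F] [NumberField F] [Algebra K F] (θ : F),
          Module.finrank K F = 3 → θ ^ 3 = algebraMap K F D → Formula (curve (1 : F)))) ∧
    Filter.Tendsto (fun X : ℕ =>
      ({D : 𝓞 K | Algebra.norm ℤ D ≤ X ∧ InClass D ∧ FiniteAndTrivial D}.ncard : ℝ) /
        ({D : 𝓞 K | Algebra.norm ℤ D ≤ X ∧ InClass D}.ncard : ℝ)) Filter.atTop
      (nhds (∏' i : ℕ, (1 - (1 / 3 : ℝ) ^ (2 * i + 1)))) ∧
    (0.639 : ℝ) < ∏' i : ℕ, (1 - (1 / 3 : ℝ) ^ (2 * i + 1)) ∧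
    ∏' i : ℕ, (1 - (1 / 3 : ℝ) ^ (2 * i + 1)) < 0.6391 :=
  Pool.Agent.XL6.finalOV K

end Pool.Agent.Results.MP_ec4e4b_nt.CubicTwistsOrderFormula
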