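import Pool.Agent.Y683.CG.TowerA

/-!
# Infinite towers of characters all of whose central values do not vanish, for several newforms at once

`f_1, ..., f_r` are newforms of even weights `2m_i` with characters `η_i`, `M_i` their motives.  For an
infinite group `H` of Dirichlet characters of exponent `ℓ^b`, composed of characters of prime
conductors that satisfy a congruence condition, there is an infinite subgroup `H₀` such that the central
values `L(f_i, χ, m_i)`, i.e. the central values of the motives attached to `M_i(m_i) ⊗ χ`, do not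
vanish for any `χ ∈ H₀` and any `i`; so the analytic ranks of the `M_i(m_i)` over all finite
subextensions of the infinite abelian extension of `ℚ` that belongs to `H₀` are zero.

Method: `L(f, χ, m)` divided by an explicit nonzero factor is a combination with coefficients values of
`χ` of modular symbols with polynomial coefficients; the products over `i` of them lie in one finitely
generated subgroup `Λ` of `ℂ`, filtered by the powers of a maximal ideal above `ℓ` of its ring of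
multipliers.  Modulo the step `n + 1` of the filtration a sum of this kind is, as a function of `χ`,
a polynomial map of degree at most `n` to a finite group.  A combinatorial theorem about polynomial maps
from groups of finite exponent to finite groups (by induction on the degree, with two applications of
the pigeonhole principle) yields blocks of characters on whose products all the values are congruent to
the value at the trivial character; the Euler-like factors at new primes do not disturb this.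
-/

set_option autoImplicit false

open Complex UpperHalfPlane MatrixGroups CongruenceSubgroup

namespace Pool.Agent.Results.MP_ec4e4b_nt.InfiniteTowers

/-- The `n`-th Fourier coefficient of `f`. -/
noncomputable def coef {N : ℕ} {k : ℤ} (f : CuspForm (Gamma1 N : Subgroup (GL (Fin 2) ℝ)) k)
    (n : ℕ) : ℂ :=
  (qExpansion 1 f).coeff n

/-- `f ∈ S_{2m}(Γ₁(N))` is a newform of weight `2m` with character `η`:
`f(γτ) = η(d) (cτ + d)^(2m) f(τ)` for all `γ = (a b; c d) ∈ Γ₀(N)`, the Fourier coefficients `c(n)` of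
`f` satisfy `c(1) = 1`, `c(ab) = c(a) c(b)` for coprime `a`, `b`,
`c(p^(j+2)) = c(p) c(p^(j+1)) - η(p) p^(2m-1) c(p^j)`, and for the primes `p ∤ N` also
`conj c(p) = conj η(p) c(p)` and `|c(p)| ≤ 2 p^((2m-1)/2)` (Deligne), for the primes `p ∣ N`
`|c(p)| ≤ p^((2m-1)/2)`; the Fricke involution takes `f` to a multiple of `f^c`,
`f^c(τ) = conj f(-conj τ)`: `f(-1/(Nτ)) = w (-N)^m τ^(2m) f^c(τ)` with `|w| = 1`. -/
structure IsNewform (m N : ℕ) (η : DirichletCharacter ℂ N)
    (f : CuspForm (Gamma1 N : Subgroup (GL (Fin 2) ℝ)) (2 * m : ℤ)) : Prop where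
  neb : ∀ γ : SL(2, ℤ), γ ∈ Gamma0 N → ∀ τ : ℍ, f (γ • τ) = η ((γ 1 1 : ℤ) : ZMod N) *
    (((γ 1 0 : ℤ) : ℂ) * (τ : ℂ) + ((γ 1 1 : ℤ) : ℂ)) ^ (2 * m) * f τ
  one : coef f 1 = 1
  mul : ∀ a b : ℕ, Nat.Coprime a b → coef f (a * b) = coef f a * coef f b
  pow : ∀ p j : ℕ, p.Prime → coef f (p ^ (j + 2)) = coef f p * coef f (p ^ (j + 1)) -
    η (p : ZMod N) * (p : ℂ) ^ (2 * m - 1) * coef f (p ^ j)
  conj : ∀ p : ℕ, p.Prime → ¬ p ∣ N → (starRingEnd ℂ) (coef f p) =
    (starRingEnd ℂ) (η (p : ZMod N)) * coef f p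
  good : ∀ p : ℕ, p.Prime → ¬ p ∣ N → ‖coef f p‖ ≤ 2 * (p : ℝ) ^ ((2 * m - 1 : ℝ) / 2)
  bad : ∀ p : ℕ, p.Prime → p ∣ N → ‖coef f p‖ ≤ (p : ℝ) ^ ((2 * m - 1 : ℝ) / 2)
  fricke : ∃ w : ℂ, ‖w‖ = 1 ∧ ∀ τ τ' τc : ℍ, (τ' : ℂ) * ((N : ℂ) * (τ : ℂ)) = -1 →
    (τc : ℂ) = -(starRingEnd ℂ) (τ : ℂ) →
    f τ' = (-1 : ℂ) ^ m * w * (N : ℂ) ^ m * (τ : ℂ) ^ (2 * m) * (starRingEnd ℂ) (f τc)

/-- Families `χ = (χ_q)` of Dirichlet characters, `χ_q` modulo `q`, with the product of families.  Only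
families with `χ_q = 1` for all but finitely many `q` occur; such a family stands for the primitive
character `∏ χ_q`, the product over the `q` with `χ_q ≠ 1` (these `q` will be primes). -/
abbrev Family : Type := (q : ℕ) → DirichletCharacter ℂ q

/-- The value at `n` of the primitive character `χ₀ ∏ χ_q`. -/
noncomputable def value {c : ℕ} (χ₀ : DirichletCharacter ℂ c) (χ : Family) (n : ℕ) : ℂ :=
  χ₀ (n : ZMod c) * ∏ᶠ (q : ℕ) (_ : χ q ≠ 1), χ q (n : ZMod q)

/-- `L(f, χ₀χ, s)`, the Euler product of the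
`(1 - ψ(p) c(p) p^(-s) + ψ(p)² η(p) p^(2m-1-2s))⁻¹`, `ψ = χ₀ ∏ χ_q`, for `Re s > m + 1/2`, extends to
an entire function, and `L(f, χ₀χ, m) ≠ 0`. -/
def Nonvanishing {m N c : ℕ} (η : DirichletCharacter ℂ N)
    (f : CuspForm (Gamma1 N : Subgroup (GL (Fin 2) ℝ)) (2 * m : ℤ)) (χ₀ : DirichletCharacter ℂ c)
    (χ : Family) : Prop :=
  ∃ L : ℂ → ℂ, Differentiable ℂ L ∧ (∀ s : ℂ, (m : ℝ) + 1 / 2 < s.re →
    HasProd (fun p : Nat.Primes => (1 - value χ₀ χ p * coef f p * ((p : ℕ) : ℂ) ^ (-s) +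
      value χ₀ χ p ^ 2 * η ((p : ℕ) : ZMod N) * ((p : ℕ) : ℂ) ^ (2 * (m : ℂ) - 1 - 2 * s))⁻¹)
      (L s)) ∧ L m ≠ 0

/-- `χ^e = 1`, and the conductor of `χ` is a (squarefree) product of primes `q` with the property
`C`. -/
def Admissible (e : ℕ) (C : ℕ → Prop) (χ : Family) : Prop :=
  χ ^ e = 1 ∧ {q | χ q ≠ 1}.Finite ∧ ∀ q, χ q ≠ 1 → q.Prime ∧ C q

/-- There are fixed integers `L_0 < L_1 < L_2 < ...` with the following properties.

(1) For **every** sequence `φ_0, φ_1, ...` of admissible characters there are nonempty sets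
`B_k ⊆ [L_k, L_{k+1})`, `k = 0, 1, ...`, such that **all** characters in the group generated by the
products `∏_{j ∈ B_k} φ_j`, `k = 0, 1, ...`, have the property `NV`.

(2) Every infinite group `H` of admissible characters contains an infinite subgroup `H₀` all of whose
elements have the property `NV`.

(3) Every finite group `H` of admissible characters of order greater than `e^(L_t)` contains a subgroup
`H₀` of order at least `t` all of whose elements have the property `NV`. -/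
def HasTowers (e : ℕ) (C : ℕ → Prop) (NV : Family → Prop) : Prop :=
  ∃ L : ℕ → ℕ,
    (∀ φ : ℕ → Family, (∀ j, Admissible e C (φ j)) → ∃ B : ℕ → Finset ℕ,
      (∀ k, (B k).Nonempty ∧ B k ⊆ Finset.Ico (L k) (L (k + 1))) ∧
      ∀ ψ ∈ Subgroup.closure (Set.range fun k => ∏ j ∈ B k, φ j), NV ψ) ∧
    (∀ H : Subgroup Family, (∀ χ ∈ H, Admissible e C χ) →
      (Infinite H → ∃ H₀ ≤ H, Infinite H₀ ∧ ∀ ψ ∈ H₀, NV ψ) ∧
      ∀ t : ℕ, e ^ L t < Nat.card H → ∃ H₀ ≤ H, t ≤ Nat.card H₀ ∧ ∀ ψ ∈ H₀, NV ψ)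

/-- **Main theorem.** Let `f_i ∈ S_{2m_i}(Γ₁(N_i))`, `i = 1, ..., r`, be newforms with characters
`η_i` and Fourier coefficients `c_i(n)`, `ℓ` a prime number and `𝔪` a maximal ideal above `ℓ` of the
ring of all algebraic integers.

(A) Let `χ₀ᵢ` be primitive Dirichlet characters of conductors prime to `N_i` with
`L(f_i, χ₀ᵢ, m_i) ≠ 0` for all `i`.  For every `b` the Dirichlet characters `χ` with `χ^(ℓ^b) = 1` and
squarefree conductors composed of primes `q`, prime to the `N_i` and to the conductors of the `χ₀ᵢ`,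
with `c_i(q) - η_i(q) χ₀ᵢ(q) - χ₀ᵢ(q)⁻¹ ∉ 𝔪` for all `i`, have the properties (1), (2), (3) of
`HasTowers` with respect to the property `L(f_i, χ₀ᵢχ, m_i) ≠ 0` for all `i`.

(B) If `ℓ` does not divide the `N_i`, then there is a primitive character `χ₀` whose conductor and order
are powers of `ℓ`, such that the same holds for all `b` with `χ₀ᵢ = χ₀` and the Dirichlet characters
`χ` with `χ^(ℓ^b) = 1` and squarefree conductors composed of primes `q`, prime to the `N_i`, with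
`c_i(q) - 1 - η_i(q) ∉ 𝔪` for all `i`. -/
theorem result (r : ℕ) (m N : Fin r → ℕ) [∀ i, NeZero (N i)] (hm : ∀ i, 1 ≤ m i)
    (η : (i : Fin r) → DirichletCharacter ℂ (N i))
    (f : (i : Fin r) → CuspForm (Gamma1 (N i) : Subgroup (GL (Fin 2) ℝ)) (2 * m i : ℤ))
    (hf : ∀ i, IsNewform (m i) (N i) (η i) (f i)) (ℓ : ℕ) (hℓ : ℓ.Prime)
    (𝔪 : Ideal (integralClosure ℤ ℂ)) (hmax : 𝔪.IsMaximal)
    (hℓ𝔪 : (ℓ : integralClosure ℤ ℂ) ∈ 𝔪) :
    (∀ (c : Fin r → ℕ) (χ₀ : (i : Fin r) → DirichletCharacter ℂ (c i)),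
      (∀ i, 1 ≤ c i ∧ Nat.Coprime (c i) (N i) ∧ (χ₀ i).IsPrimitive ∧
        Nonvanishing (η i) (f i) (χ₀ i) 1) →
      ∀ b : ℕ, HasTowers (ℓ ^ b)
        (fun q => ∀ i, ¬ q ∣ N i ∧ ¬ q ∣ c i ∧ ∃ x : integralClosure ℤ ℂ, x ∉ 𝔪 ∧
          (x : ℂ) = coef (f i) q - η i (q : ZMod (N i)) * χ₀ i (q : ZMod (c i)) -
            (χ₀ i (q : ZMod (c i)))⁻¹)
        (fun ψ => ∀ i, Nonvanishing (η i) (f i) (χ₀ i) ψ)) ∧
    ((∀ i, ¬ ℓ ∣ N i) → ∃ (k a : ℕ) (χ₀ : DirichletCharacter ℂ (ℓ ^ k)), χ₀.IsPrimitive ∧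
      χ₀ ^ (ℓ ^ a) = 1 ∧
      ∀ b : ℕ, HasTowers (ℓ ^ b)
        (fun q => ∀ i, ¬ q ∣ N i ∧ ∃ x : integralClosure ℤ ℂ, x ∉ 𝔪 ∧
          (x : ℂ) = coef (f i) q - 1 - η i (q : ZMod (N i)))
        (fun ψ => ∀ i, Nonvanishing (η i) (f i) χ₀ ψ)) := by
  choose w hw hfr using fun i => (hf i).fricke
  have hN : ∀ i, Pool.Agent.W192.CY.NNewf (m i) (N i) (η i) (f i) (w i) := fun i =>
    ⟨(hf i).one, (hf i).mul, (hf i).pow, (hf i).conj, (hf i).good, (hf i).bad, (hf i).neb, hw i,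
      hfr i⟩
  refine ⟨fun c χ₀ h b => ?_, fun hℓN => ?_⟩
  · exact Pool.Agent.Y683.CG.towerA hm hN hℓ 𝔪 hmax hℓ𝔪 (fun i => (h i).1) χ₀
      (fun i => (h i).2.2.1) (fun i => (h i).2.1) (fun i => (h i).2.2.2) b
  · exact Pool.Agent.Y683.CG.towerB hm hN hℓ 𝔪 hmax hℓ𝔪 hℓN

end Pool.Agent.Results.MP_ec4e4b_nt.InfiniteTowers
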